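import Pool.Agent.LibSAR.MainIndex

/-!
# Bukh and Matousek: homogeneous sets in semi-algebraic hypergraphs in `ℝ ^ d`

The number of iterated logarithms in the lower bound for the size of homogeneous sets does not
depend on the uniformity `k`, in every dimension `d`.
-/

namespace Pool.Agent.Results.MP_7bd1f8_co.IterLog

/-- the edge condition of the hypergraph `H_n` on the points `v 0, ..., v (n - 1)` of `ℝ ^ d`: the
`k`-subset of indices `e 0 < ... < e (k - 1)` is an edge iff `f (v (e 0), ..., v (e (k - 1))) ≥ 0` -/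
def IsEdge {k d n : ℕ} (f : MvPolynomial (Fin k × Fin d) ℝ) (v : Fin n → Fin d → ℝ)
    (e : Fin k → Fin n) : Prop :=
  0 ≤ MvPolynomial.eval (fun p => v (e p.1) p.2) f

/-- `s` is a clique of `H_n` -/
def IsClique {k d n : ℕ} (f : MvPolynomial (Fin k × Fin d) ℝ) (v : Fin n → Fin d → ℝ)
    (s : Finset (Fin n)) : Prop :=
  ∀ e : Fin k → Fin n, StrictMono e → (∀ l, e l ∈ s) → IsEdge f v e

/-- `s` is an independent set of `H_n` -/
def IsIndep {k d n : ℕ} (f : MvPolynomial (Fin k × Fin d) ℝ) (v : Fin n → Fin d → ℝ)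
    (s : Finset (Fin n)) : Prop :=
  ∀ e : Fin k → Fin n, StrictMono e → (∀ l, e l ∈ s) → ¬ IsEdge f v e

/-- the clique number `ω(H_n)` -/
noncomputable def cliqueNumber {k d n : ℕ} (f : MvPolynomial (Fin k × Fin d) ℝ)
    (v : Fin n → Fin d → ℝ) : ℕ :=
  sSup {m | ∃ s : Finset (Fin n), IsClique f v s ∧ s.card = m}

/-- the independence number `α(H_n)` -/
noncomputable def indepNumber {k d n : ℕ} (f : MvPolynomial (Fin k × Fin d) ℝ)
    (v : Fin n → Fin d → ℝ) : ℕ :=
  sSup {m | ∃ s : Finset (Fin n), IsIndep f v s ∧ s.card = m}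

/-- `r_f(n)`: the minimum of `max (α(H_n)) (ω(H_n))` over all sequences of `n` distinct points -/
noncomputable def homNumber {k d : ℕ} (f : MvPolynomial (Fin k × Fin d) ℝ) (n : ℕ) : ℕ :=
  sInf {m | ∃ v : Fin n → Fin d → ℝ, Function.Injective v ∧
    m = max (indepNumber f v) (cliqueNumber f v)}

theorem le_cliqueNumber {k d n : ℕ} {f : MvPolynomial (Fin k × Fin d) ℝ}
    {v : Fin n → Fin d → ℝ} {s : Finset (Fin n)} (h : IsClique f v s) :
    s.card ≤ cliqueNumber f v := by
  apply le_csSup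
  · refine ⟨n, ?_⟩
    rintro m ⟨t, _, rfl⟩
    simpa using Finset.card_le_univ t
  · exact ⟨s, h, rfl⟩

theorem le_indepNumber {k d n : ℕ} {f : MvPolynomial (Fin k × Fin d) ℝ}
    {v : Fin n → Fin d → ℝ} {s : Finset (Fin n)} (h : IsIndep f v s) :
    s.card ≤ indepNumber f v := by
  apply le_csSup
  · refine ⟨n, ?_⟩
    rintro m ⟨t, _, rfl⟩
    simpa using Finset.card_le_univ t
  · exact ⟨s, h, rfl⟩

theorem tendsto_iterLog (C : ℕ) :
    Filter.Tendsto (fun n : ℕ => Real.log^[C] (n : ℝ)) Filter.atTop Filter.atTop := by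
  induction C with
  | zero => simpa using tendsto_natCast_atTop_atTop (R := ℝ)
  | succ C ih =>
    simp_rw [Function.iterate_succ_apply']
    exact Real.tendsto_log_atTop.comp ih

theorem two_pow_le_exp (t : ℕ) : (2 : ℝ) ^ t ≤ Real.exp t := by
  have h : (2 : ℝ) ≤ Real.exp 1 := by
    have := Real.exp_one_gt_d9
    linarith
  calc (2 : ℝ) ^ t ≤ (Real.exp 1) ^ t := pow_le_pow_left₀ (by norm_num) h t
    _ = Real.exp t := by rw [← Real.exp_nat_mul, mul_one]

theorem tw_le (M : ℕ) : ∀ (J : ℕ) (x : ℝ), (∀ i ≤ J, 0 < Real.log^[i] x) →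
    (M : ℝ) ≤ Real.log^[J] x → (LibSAR.tw J M : ℝ) ≤ x := by
  intro J
  induction J with
  | zero => intro x _ h; simpa [LibSAR.tw] using h
  | succ J ih =>
    intro x hx h
    have h1 : (LibSAR.tw J M : ℝ) ≤ Real.log x := by
      apply ih
      · intro i hi
        have := hx (i + 1) (by omega)
        rwa [Function.iterate_succ_apply] at this
      · rwa [Function.iterate_succ_apply] at h
    have hx0 : 0 < x := by simpa using hx 0 (by omega)
    calc (LibSAR.tw (J + 1) M : ℝ) = (2 : ℝ) ^ (LibSAR.tw J M) := by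
          simp [LibSAR.tw]
      _ ≤ Real.exp (LibSAR.tw J M) := two_pow_le_exp _
      _ ≤ Real.exp (Real.log x) := Real.exp_le_exp.2 h1
      _ = x := Real.exp_log hx0

/-- the exponent vector of a choice of exponents -/
noncomputable def expo {k d D : ℕ} (τ : Fin k → Fin d → Fin (D + 1)) : Fin k × Fin d →₀ ℕ :=
  Finsupp.equivFunOnFinite.symm fun p => (τ p.1 p.2 : ℕ)

theorem expo_apply {k d D : ℕ} (τ : Fin k → Fin d → Fin (D + 1)) (p : Fin k × Fin d) :
    expo τ p = (τ p.1 p.2 : ℕ) := rfl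

theorem expo_injective {k d D : ℕ} :
    Function.Injective (expo : (Fin k → Fin d → Fin (D + 1)) → _) := by
  intro τ τ' h
  funext l a
  have h1 := DFunLike.congr_fun h (l, a)
  rw [expo_apply, expo_apply] at h1
  exact Fin.ext h1

theorem eval_expand {k d : ℕ} (f : MvPolynomial (Fin k × Fin d) ℝ) (X : Fin k → Fin d → ℝ) :
    ∑ τ : Fin k → Fin d → Fin (f.totalDegree + 1), f.coeff (expo τ) *
      ∏ l, ∏ a, X l a ^ (τ l a : ℕ) = MvPolynomial.eval (fun p => X p.1 p.2) f := by
  classical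
  rw [MvPolynomial.eval_eq']
  have h1 : ∑ τ : Fin k → Fin d → Fin (f.totalDegree + 1), f.coeff (expo τ) *
      ∏ l, ∏ a, X l a ^ (τ l a : ℕ) = ∑ s ∈ Finset.univ.image
        (expo : (Fin k → Fin d → Fin (f.totalDegree + 1)) → _),
        f.coeff s * ∏ p : Fin k × Fin d, X p.1 p.2 ^ s p := by
    rw [Finset.sum_image (fun a _ b _ h => expo_injective h)]
    apply Finset.sum_congr rfl
    intro τ _
    rw [Fintype.prod_prod_type]
    rfl
  rw [h1]
  symm
  apply Finset.sum_subset
  · intro s hs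
    rw [Finset.mem_image]
    refine ⟨fun l a => ⟨s (l, a), ?_⟩, Finset.mem_univ _, ?_⟩
    · have h2 := MvPolynomial.monomial_le_degreeOf (l, a) hs
      have h3 := MvPolynomial.degreeOf_le_totalDegree f (l, a)
      omega
    · ext p
      rfl
  · intro s _ hs
    rw [MvPolynomial.notMem_support_iff.1 hs, zero_mul]

/-- for every dimension `d` there is `C` such that for all `k` and all polynomials `f` on
`(ℝ ^ d) ^ k` there is `c > 0` such that for all large `n` the iterated logarithm `log^(C) n` is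
positive, `r_f(n) ≥ c log^(C) n`, and more generally `max (α(H_n)) (ω(H_n)) ≥ c log^(C) n` for all
sequences of `n` points of `ℝ ^ d`, distinct or not -/
theorem result (d : ℕ) (hd : 1 ≤ d) : ∃ C : ℕ, ∀ k : ℕ, 2 ≤ k →
    ∀ f : MvPolynomial (Fin k × Fin d) ℝ, ∃ c : ℝ, 0 < c ∧ ∃ n₀ : ℕ, ∀ n ≥ n₀,
      0 < Real.log^[C] (n : ℝ) ∧ c * Real.log^[C] (n : ℝ) ≤ homNumber f n ∧
      ∀ v : Fin n → Fin d → ℝ,
        c * Real.log^[C] (n : ℝ) ≤ max (indepNumber f v) (cliqueNumber f v) := by
  obtain ⟨J, hJ⟩ := LibSAR.main_index d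
  refine ⟨J, fun k _ f => ⟨1 / 2, by norm_num, ?_⟩⟩
  obtain ⟨M₀, hM₀⟩ := hJ f.totalDegree k
  have hev : ∀ᶠ n : ℕ in Filter.atTop, (∀ i ∈ Finset.range (J + 1), 0 < Real.log^[i] (n : ℝ)) ∧
      (M₀ : ℝ) + 2 ≤ Real.log^[J] (n : ℝ) := by
    refine Filter.Eventually.and ?_ ((tendsto_iterLog J).eventually_ge_atTop _)
    rw [Filter.eventually_all_finset]
    intro i _
    exact (tendsto_iterLog i).eventually_gt_atTop 0
  obtain ⟨n₀, hn₀⟩ := Filter.eventually_atTop.1 hev
  refine ⟨n₀, fun n hn => ?_⟩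
  obtain ⟨hpos, hlarge⟩ := hn₀ n hn
  have hposJ : 0 < Real.log^[J] (n : ℝ) := hpos J (Finset.mem_range.2 (Nat.lt_succ_self J))
  have main : ∀ v : Fin n → Fin d → ℝ,
      1 / 2 * Real.log^[J] (n : ℝ) ≤ max (indepNumber f v) (cliqueNumber f v) := by
    intro v
    set M : ℕ := ⌊Real.log^[J] (n : ℝ)⌋₊ with hM
    have hM1 : (M : ℝ) ≤ Real.log^[J] (n : ℝ) := Nat.floor_le hposJ.le
    have hM2 : Real.log^[J] (n : ℝ) < M + 1 := Nat.lt_floor_add_one _
    have hMM₀ : M₀ ≤ M := by
      have : (M₀ : ℝ) ≤ M := by linarith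
      exact_mod_cast this
    have htw : LibSAR.tw J M ≤ (Finset.range n).card := by
      rw [Finset.card_range]
      have := tw_le M J (n : ℝ) (fun i hi => hpos i (Finset.mem_range.2 (by omega))) hM1
      exact_mod_cast this
    set v' : ℕ → Fin d → ℝ := fun i => if h : i < n then v ⟨i, h⟩ else 0 with hv'
    have hv'e : ∀ i : Fin n, v' i = v i := by
      intro i
      rw [hv']
      simp only [i.isLt, dite_true]
    obtain ⟨B, hB, hBM, hsign⟩ := hM₀ M hMM₀ v' (fun τ => f.coeff (expo τ)) (Finset.range n) htw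
    have hlt : ∀ i ∈ B, i < n := fun i hi => Finset.mem_range.1 (hB hi)
    set s : Finset (Fin n) := B.attachFin hlt with hs
    have hsc : s.card = B.card := Finset.card_attachFin B hlt
    have hval : ∀ e : Fin k → Fin n,
        ∑ τ : Fin k → Fin d → Fin (f.totalDegree + 1), f.coeff (expo τ) *
          ∏ l, ∏ a, v' (e l) a ^ (τ l a : ℕ) = MvPolynomial.eval (fun p => v (e p.1) p.2) f := by
      intro e
      rw [eval_expand f (fun l a => v' (e l) a)]
      simp only [hv'e]
    have hmem : ∀ e : Fin k → Fin n, (∀ l, e l ∈ s) → ∀ l, (e l : ℕ) ∈ B := by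
      intro e he l
      have := he l
      rwa [hs, Finset.mem_attachFin] at this
    have hfin : (M : ℝ) ≤ max (indepNumber f v) (cliqueNumber f v) := by
      have hmax : M ≤ max (indepNumber f v) (cliqueNumber f v) := by
        rcases hsign with h | h
        · have hc : IsClique f v s := by
            intro e he hes
            unfold IsEdge
            rw [← hval e]
            exact h (fun l => (e l : ℕ)) (fun a b hab => he hab) (hmem e hes)
          exact (hBM.trans (hsc ▸ le_cliqueNumber hc)).trans (le_max_right _ _)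
        · have hc : IsIndep f v s := by
            intro e he hes
            unfold IsEdge
            rw [← hval e, not_le]
            exact h (fun l => (e l : ℕ)) (fun a b hab => he hab) (hmem e hes)
          exact (hBM.trans (hsc ▸ le_indepNumber hc)).trans (le_max_left _ _)
      exact_mod_cast hmax
    have hM₀' : (0 : ℝ) ≤ M₀ := Nat.cast_nonneg _
    linarith
  refine ⟨hposJ, ?_, main⟩
  have hne : {m | ∃ v : Fin n → Fin d → ℝ, Function.Injective v ∧
      m = max (indepNumber f v) (cliqueNumber f v)}.Nonempty := by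
    refine ⟨_, fun i _ => (i : ℝ), ?_, rfl⟩
    intro i j hij
    have h1 := congrFun hij ⟨0, hd⟩
    simp only at h1
    exact Fin.ext (by exact_mod_cast h1)
  obtain ⟨v, _, hv⟩ := Nat.sInf_mem hne
  have h2 : homNumber f n = max (indepNumber f v) (cliqueNumber f v) := hv
  rw [h2]
  have := main v
  exact_mod_cast this

end Pool.Agent.Results.MP_7bd1f8_co.IterLog
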